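import Pool.Agent.Y504.CO.GnrF
import Pool.Agent.Y368.CL.RvG

/-!
# Generic diffeomorphisms: points which can be closed up are limits of periodic points
-/

set_option autoImplicit false
set_option linter.unusedSectionVars false

open scoped Manifold ContDiff Topology
open Filter Set Metric

universe u

namespace Pool.Agent.Y368.GG

open Pool.Agent.H718R2.G Pool.Agent.TH80.OMS Pool.Agent.W564.SC Pool.Agent.Y504.CO

section

variable {n : ℕ} {N : Type u} [TopologicalSpace N] [T2Space N] [CompactSpace N]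
  [ChartedSpace (V n) N] [IsManifold (𝓡 n) ∞ N]

/-- `C^r` closing lemma at the isolated nonwandering points, for every diffeomorphism. -/
theorem closable_iso {r : ℕ∞} (hr : 1 ≤ r) (f : DiffM n N r) (z : N) (hz : z ∈ Omega f)
    (hiso : ∃ O : Set N, IsOpen O ∧ z ∈ O ∧ ∀ y ∈ Omega f, y ∈ O → y = z) :
    Closable n N r f z := by
  intro U hU hfU
  by_cases hzP : z ∈ Per f
  · exact ⟨f, hfU, hzP⟩
  · obtain ⟨g, hg, hzg, -⟩ := Final.hC2 n N r hr f U hU hfU z hz hzP hiso
    exact ⟨g, hg, hzg⟩

/-- Generic diffeomorphisms: all points which can be closed up are limits of periodic points. -/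
theorem generic_closable (r : ℕ∞) (hr : 1 ≤ r) :
    ∃ R : ℕ → Set (DiffM n N r), (∀ j, IsOpen[strongTop n N r] (R j)) ∧
      (∀ j, @Dense _ (strongTop n N r) (R j)) ∧
      ∀ f : DiffM n N r, (∀ j, f ∈ R j) → ∀ z, Closable n N r f z → z ∈ closure (Per f) := by
  have : SecondCountableTopology N := ChartedSpace.secondCountable_of_sigmaCompact (V n) N
  obtain ⟨R, h1, h2, h3⟩ := Gnr.hBA (DiffM n N r) (strongTop n N r) N (fun f => Per f)
    (fun f => {z | Closable n N r f z}) (by
      intro f z hz hzP O hO hzO U hU hfU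
      obtain ⟨g, hg, hzg⟩ := hz U hU hfU
      obtain ⟨g', hg', k, ψ, hnd⟩ := Gnr.hND n N r hr g U hU hg z hzg
      obtain ⟨W, hW, hgW, h⟩ := GnrF.hPE n N r hr g' z k ψ hnd O hO hzO
      exact ⟨g', hg', W, hW, hgW, fun g'' hg'' => by
        obtain ⟨q, hqO, hq⟩ := h g'' hg''
        exact ⟨q, hqO, hq⟩⟩)
  exact ⟨R, h1, h2, fun f hf z hz => h3 f hf hz⟩

/-- If all closable points are limits of periodic points, then every nonempty relatively open part
of `Ω(f) ∖ closure(Per(f))` is uncountable. -/
theorem uncountable_of_closable {r : ℕ∞} (hr : 1 ≤ r) (f : DiffM n N r)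
    (h : ∀ z, Closable n N r f z → z ∈ closure (Per f)) (O : Set N) (hO : IsOpen O)
    (hne : (O ∩ (Omega f \ closure (Per f))).Nonempty) :
    ¬ (O ∩ (Omega f \ closure (Per f))).Countable := by
  intro hc
  have : SecondCountableTopology N := ChartedSpace.secondCountable_of_sigmaCompact (V n) N
  obtain ⟨z, hz, hzC, -, W, hW, hzW, h'⟩ := Bad.exists_isolated (Cnt.omega_closed f)
    isClosed_closure hO hne hc
  exact hzC (h z (closable_iso hr f z hz ⟨W, hW, hzW, h'⟩))

end

end Pool.Agent.Y368.GG
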